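import Pool.Agent.Lib_helper57.MinHomeo.Defs

open Set Metric Topology Filter

namespace Pool.Agent.MinHomeo

variable {X M : Type} [NormedAddCommGroup X] [NormedSpace ℝ X] [MetricSpace M]

theorem LemA_R_zero (C : RotChart X M) (x : M) : C.R 0 x = x := by
  have h := C.R_add 0 0 x
  rw [add_zero] at h
  exact ((C.R 0).injective h).symm

theorem LemA_R_neg (C : RotChart X M) (t : ℝ) (x : M) : C.R t (C.R (-t) x) = x := by
  rw [← C.R_add, add_neg_cancel, LemA_R_zero]

theorem LemA_R_symm (C : RotChart X M) (t : ℝ) (x : M) : (C.R t).symm x = C.R (-t) x := by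
  apply (C.R t).injective
  rw [Homeomorph.apply_symm_apply, LemA_R_neg]

theorem LemA_R_nat (C : RotChart X M) (k : ℕ) (x : M) : C.R (k : ℝ) x = x := by
  induction k with
  | zero => simpa using LemA_R_zero C x
  | succ k ih =>
    rw [Nat.cast_succ, C.R_add, C.R_one, ih]

theorem LemA_R_int (C : RotChart X M) (k : ℤ) (x : M) : C.R (k : ℝ) x = x := by
  obtain ⟨n, rfl | rfl⟩ := k.eq_nat_or_neg
  · simpa using LemA_R_nat C n x
  · have h := LemA_R_neg C (-(n : ℝ)) x
    rw [neg_neg, LemA_R_nat] at h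
    push_cast
    exact h

theorem LemA_R_iter (C : RotChart X M) (t : ℝ) (j : ℕ) (x : M) :
    (⇑(C.R t))^[j] x = C.R (j * t) x := by
  induction j with
  | zero => simpa using (LemA_R_zero C x).symm
  | succ j ih =>
    rw [Function.iterate_succ_apply', ih, ← C.R_add]
    congr 2
    push_cast
    ring

theorem LemA_unif [CompactSpace M] (C : RotChart X M) (δ : ℝ) (hδ : 0 < δ) :
    ∃ τ : ℝ, 0 < τ ∧ ∀ s t : ℝ, |s - t| < τ → ∀ x, dist (C.R s x) (C.R t x) < δ := by
  have hc : IsCompact ((Icc (-1 : ℝ) 1) ×ˢ (univ : Set M)) := isCompact_Icc.prod isCompact_univ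
  have hu := hc.uniformContinuousOn_of_continuous C.R_cont.continuousOn
  rw [Metric.uniformContinuousOn_iff] at hu
  obtain ⟨τ, hτ, h⟩ := hu δ hδ
  refine ⟨min τ 1, lt_min hτ one_pos, ?_⟩
  intro s t hst x
  have h1 : C.R s x = C.R t (C.R (s - t) x) := by
    rw [← C.R_add]; congr 2; ring
  rw [h1, C.R_isom]
  have hs : |s - t| < τ := lt_of_lt_of_le hst (min_le_left _ _)
  have hs1 : |s - t| < 1 := lt_of_lt_of_le hst (min_le_right _ _)
  have h2 := h (s - t, x) ⟨⟨by linarith [(abs_lt.1 hs1).1], by linarith [(abs_lt.1 hs1).2]⟩, mem_univ _⟩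
    (0, x) ⟨⟨by norm_num, by norm_num⟩, mem_univ _⟩ (by
      rw [Prod.dist_eq]
      simp only [dist_self, Real.dist_eq, sub_zero]
      exact max_lt hs hτ)
  simpa [LemA_R_zero] using h2

theorem LemA_dense (C : RotChart X M) (α : ℝ) (hα : Irrational α) (m : M) (W : Set M)
    (hW : IsOpen W) (t : ℝ) (ht : C.R t m ∈ W) : ∃ j : ℕ, C.R (j * α) m ∈ W := by
  have : Fact ((0 : ℝ) < 1) := ⟨one_pos⟩
  have hd : DenseRange (fun n : ℕ => n • ((α : ℝ) : AddCircle (1 : ℝ))) := by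
    rw [← denseRange_zsmul_iff_nsmul]
    exact AddCircle.denseRange_zsmul_coe_iff.2 (by simpa using hα)
  set S : Set ℝ := {s | C.R s m ∈ W} with hS
  have hSo : IsOpen S := by
    have hc : Continuous fun s : ℝ => C.R s m := C.R_cont.comp (by fun_prop : Continuous fun s : ℝ => (s, m))
    exact hW.preimage hc
  have hio : IsOpen ((fun s : ℝ => (s : AddCircle (1 : ℝ))) '' S) :=
    QuotientAddGroup.isOpenMap_coe S hSo
  obtain ⟨n, hn⟩ := hd.exists_mem_open hio ⟨_, t, ht, rfl⟩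
  obtain ⟨s, hs, hsn⟩ := hn
  have h0 : ((s - n * α : ℝ) : AddCircle (1 : ℝ)) = 0 := by
    have : ((s - n * α : ℝ) : AddCircle (1 : ℝ)) = (s : AddCircle (1 : ℝ)) - n • ((α : ℝ) : AddCircle (1 : ℝ)) := by
      rw [AddCircle.coe_sub, ← nsmul_eq_mul, AddCircle.coe_nsmul]
    rw [this]
    exact sub_eq_zero.2 hsn
  obtain ⟨k, hk⟩ := (AddCircle.coe_eq_zero_iff (1 : ℝ)).1 h0
  refine ⟨n, ?_⟩
  have : C.R s m = C.R (n * α) m := by
    have : s = n * α + (k : ℝ) := by
      have : (k : ℝ) = s - n * α := by simpa using hk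
      linarith
    rw [this, C.R_add, LemA_R_int]
  rw [← this]
  exact hs

theorem LemA_bound [CompactSpace M] (g : M → M) (hg : Continuous g) (U : Set M) (hU : IsOpen U)
    (h : ∀ x, ∃ a : ℕ, g^[a] x ∈ U) : ∃ N : ℕ, ∀ x, ∃ a ≤ N, g^[a] x ∈ U := by
  obtain ⟨t, ht⟩ := isCompact_univ.elim_finite_subcover (fun a : ℕ => (g^[a]) ⁻¹' U)
    (fun a => hU.preimage (hg.iterate a)) (by
      intro x _
      obtain ⟨a, ha⟩ := h x
      exact mem_iUnion.2 ⟨a, ha⟩)
  refine ⟨t.sup id, fun x => ?_⟩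
  have hx := ht (mem_univ x)
  simp only [mem_iUnion] at hx
  obtain ⟨a, hat, ha⟩ := hx
  exact ⟨a, Finset.le_sup (f := id) hat, ha⟩

/-- Conjugate of a rotation. -/
noncomputable def LemA_conj (C : RotChart X M) (h : M ≃ₜ M) (α : ℝ) : M ≃ₜ M :=
  (h.symm.trans (C.R α)).trans h

theorem LemA_conj_apply (C : RotChart X M) (h : M ≃ₜ M) (α : ℝ) (x : M) :
    LemA_conj C h α x = h (C.R α (h.symm x)) := rfl

theorem LemA_conj_symm_apply (C : RotChart X M) (h : M ≃ₜ M) (α : ℝ) (x : M) :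
    (LemA_conj C h α).symm x = h (C.R (-α) (h.symm x)) := by
  change h ((C.R α).symm (h.symm x)) = _
  rw [LemA_R_symm]

theorem LemA_conj_iter (C : RotChart X M) (h : M ≃ₜ M) (α : ℝ) (g : M → M)
    (hg : ∀ x, g x = h (C.R α (h.symm x))) (j : ℕ) (x : M) :
    g^[j] x = h (C.R (j * α) (h.symm x)) := by
  induction j with
  | zero => simp [LemA_R_zero]
  | succ j ih =>
    rw [Function.iterate_succ_apply', ih, hg, Homeomorph.symm_apply_apply, ← C.R_add]
    congr 3
    push_cast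
    ring

theorem propA [CompactSpace M] (C : RotChart X M) (h : Hit_Stmt C) : PropA C.rot := by
  rintro f ⟨k, α, hα, hf⟩ U hU hUne ε hε
  -- uniform continuity of `k`
  have hku : UniformContinuous k := CompactSpace.uniformContinuous_of_continuous k.continuous
  obtain ⟨δ, hδ, hkδ⟩ := Metric.uniformContinuous_iff.1 hku ε hε
  obtain ⟨τ, hτ, hRτ⟩ := LemA_unif C (δ / 2) (half_pos hδ)
  obtain ⟨q, hq1, hq2⟩ := exists_rat_btwn (show α - τ < α by linarith)
  have hqQ : (q : ℝ) = (q.num : ℝ) / (q.den : ℝ) := Rat.cast_def q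
  obtain ⟨G, hGc, hGV⟩ := h (k ⁻¹' U) (hU.preimage k.continuous) (by
    obtain ⟨u, hu⟩ := hUne
    exact ⟨k.symm u, by simpa using hu⟩) q.den q.den_pos
  have hGu : UniformContinuous G := CompactSpace.uniformContinuous_of_continuous G.continuous
  obtain ⟨δ', hδ', hGδ⟩ := Metric.uniformContinuous_iff.1 hGu (δ / 2) (half_pos hδ)
  obtain ⟨τ', hτ', hRτ'⟩ := LemA_unif C δ' hδ'
  obtain ⟨β, hβ, hβ1, hβ2⟩ := exists_irrational_btwn (show (q : ℝ) < q + τ' by linarith)
  set h' : M ≃ₜ M := G.trans k with hh'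
  set g : M ≃ₜ M := LemA_conj C h' β with hgdef
  have hgx : ∀ x, g x = h' (C.R β (h'.symm x)) := fun x => rfl
  have hgs : ∀ x, g.symm x = h' (C.R (-β) (h'.symm x)) := fun x => LemA_conj_symm_apply C h' β x
  have hfs : ∀ x, f.symm x = k (C.R (-α) (k.symm x)) := by
    intro x
    apply f.injective
    rw [Homeomorph.apply_symm_apply, hf, Homeomorph.symm_apply_apply, LemA_R_neg,
      Homeomorph.apply_symm_apply]
  -- general closeness
  have key : ∀ (a b : ℝ) (j : ℤ), |a - (j : ℝ) / q.den| < τ → |b - (j : ℝ) / q.den| < τ' →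
      ∀ x, dist (h' (C.R b (h'.symm x))) (k (C.R a (k.symm x))) < ε := by
    intro a b j ha hb x
    have e1 : h' (C.R b (h'.symm x)) = k (G (C.R b (G.symm (k.symm x)))) := rfl
    rw [e1]
    apply hkδ
    have e2 : dist (G (C.R b (G.symm (k.symm x)))) (C.R ((j : ℝ) / q.den) (k.symm x)) < δ / 2 := by
      have e3 : C.R ((j : ℝ) / q.den) (k.symm x) = G (C.R ((j : ℝ) / q.den) (G.symm (k.symm x))) := by
        rw [hGc, Homeomorph.apply_symm_apply]
      rw [e3]
      exact hGδ (hRτ' _ _ hb _)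
    have e4 : dist (C.R ((j : ℝ) / q.den) (k.symm x)) (C.R a (k.symm x)) < δ / 2 := by
      rw [dist_comm]
      exact hRτ _ _ ha _
    calc dist (G (C.R b (G.symm (k.symm x)))) (C.R a (k.symm x))
        ≤ _ := dist_triangle _ (C.R ((j : ℝ) / q.den) (k.symm x)) _
      _ < δ / 2 + δ / 2 := add_lt_add e2 e4
      _ = δ := by ring
  -- hitting
  have hit : ∀ (b : ℝ), Irrational b → ∀ (g' : M → M), (∀ x, g' x = h' (C.R b (h'.symm x))) →
      ∀ x, ∃ a : ℕ, g'^[a] x ∈ U := by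
    intro b hb g' hg' x
    obtain ⟨t, ht⟩ := hGV (h'.symm x)
    obtain ⟨j, hj⟩ := LemA_dense C b hb (h'.symm x) (G ⁻¹' (k ⁻¹' U))
      ((hU.preimage k.continuous).preimage G.continuous) t ht
    refine ⟨j, ?_⟩
    rw [LemA_conj_iter C h' b g' hg' j x]
    exact hj
  obtain ⟨N1, hN1⟩ := LemA_bound (⇑g) g.continuous U hU (hit β hβ g hgx)
  obtain ⟨N2, hN2⟩ := LemA_bound (⇑g.symm) g.symm.continuous U hU (hit (-β) hβ.neg g.symm hgs)
  refine ⟨g, ⟨h', β, hβ, hgx⟩, max N1 N2, ?_, ?_, ?_, ?_⟩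
  · intro x
    rw [hgx, hf]
    apply key α β q.num
    · rw [← hqQ, abs_lt]; constructor <;> linarith
    · rw [← hqQ, abs_lt]; constructor <;> linarith
  · intro x
    rw [hgs, hfs]
    apply key (-α) (-β) (-q.num)
    · push_cast
      rw [neg_div, ← hqQ, abs_lt]; constructor <;> linarith
    · push_cast
      rw [neg_div, ← hqQ, abs_lt]; constructor <;> linarith
  · intro x
    obtain ⟨a, ha, hx⟩ := hN1 x
    exact ⟨a, ha.trans (le_max_left _ _), hx⟩
  · intro x
    obtain ⟨a, ha, hx⟩ := hN2 x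
    exact ⟨a, ha.trans (le_max_right _ _), hx⟩

end Pool.Agent.MinHomeo
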